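import Pool.Agent.N414.LR.Stm

/-!
# LR/HS: the operator of a square summable kernel (helper2)
-/

set_option autoImplicit false

namespace Pool.Agent.N2.LR.HS

open Pool.Agent.H494R3.GT Pool.Agent.N414.LR

noncomputable section

theorem sq_summable {P : Type} (k : L2 P) : Summable fun p => ‖k p‖ ^ 2 := by
  have h := (lp.memℓp k).summable (by norm_num : 0 < (2 : ENNReal).toReal)
  simpa using h

theorem sq_tsum {P : Type} (k : L2 P) : ∑' p, ‖k p‖ ^ 2 = ‖k‖ ^ 2 := by
  have h := lp.norm_rpow_eq_tsum (p := 2) (by norm_num) k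
  simpa using h.symm

/-- the vector with given square summable coefficients -/
def mk2 {P : Type} (f : P → ℂ) (h : Summable fun p => ‖f p‖ ^ 2) : L2 P :=
  ⟨f, memℓp_gen (by simpa using h)⟩

theorem mk2_apply {P : Type} (f : P → ℂ) (h : Summable fun p => ‖f p‖ ^ 2) (p : P) :
    mk2 f h p = f p := rfl

/-- the conjugate of a row -/
def row {P : Type} (k : L2 (P × P)) (p : P) : L2 P :=
  mk2 (fun q => (starRingEnd ℂ) (k (p, q))) (by
    have h := (sq_summable k).prod_factor p
    simpa using h)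

theorem norm_row {P : Type} (k : L2 (P × P)) (p : P) :
    ‖row k p‖ ^ 2 = ∑' q, ‖k (p, q)‖ ^ 2 := by
  rw [← sq_tsum]
  refine tsum_congr fun q => ?_
  rw [row, mk2_apply, RCLike.norm_conj]

theorem row_summable {P : Type} (k : L2 (P × P)) : Summable fun p => ‖row k p‖ ^ 2 := by
  simp only [norm_row]
  exact (sq_summable k).prod

theorem row_tsum {P : Type} (k : L2 (P × P)) : ∑' p, ‖row k p‖ ^ 2 = ‖k‖ ^ 2 := by
  simp only [norm_row]
  rw [← sq_tsum]
  exact ((sq_summable k).tsum_prod).symm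

theorem inner_row {P : Type} (k : L2 (P × P)) (v : L2 P) (p : P) :
    ‖inner ℂ (row k p) v‖ ^ 2 ≤ ‖row k p‖ ^ 2 * ‖v‖ ^ 2 := by
  rw [← mul_pow]
  exact pow_le_pow_left₀ (norm_nonneg _) (norm_inner_le_norm _ _) 2

theorem inner_summable {P : Type} (k : L2 (P × P)) (v : L2 P) :
    Summable fun p => ‖inner ℂ (row k p) v‖ ^ 2 :=
  Summable.of_nonneg_of_le (fun _ => by positivity) (inner_row k v)
    ((row_summable k).mul_right _)

/-- The operator of a kernel. -/
def KL {P : Type} (k : L2 (P × P)) : L2 P →ₗ[ℂ] L2 P where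
  toFun v := mk2 (fun p => inner ℂ (row k p) v) (inner_summable k v)
  map_add' v w := by
    refine vec_ext fun p => ?_
    rw [mk2_apply, inner_add_right]
    rfl
  map_smul' c v := by
    refine vec_ext fun p => ?_
    rw [mk2_apply, inner_smul_right]
    rfl

theorem KL_apply {P : Type} (k : L2 (P × P)) (v : L2 P) (p : P) :
    KL k v p = inner ℂ (row k p) v := rfl

theorem KL_bound {P : Type} (k : L2 (P × P)) (v : L2 P) : ‖KL k v‖ ≤ ‖k‖ * ‖v‖ := by
  refine le_of_sq_le_sq ?_ (by positivity)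
  rw [← sq_tsum, mul_pow, ← row_tsum, ← tsum_mul_right]
  refine Summable.tsum_le_tsum (fun p => ?_) (sq_summable _) ((row_summable k).mul_right _)
  rw [KL_apply]
  exact inner_row k v p

/-- HS -/
theorem main : S_HS := by
  intro P k
  refine ⟨(KL k).mkContinuous ‖k‖ (KL_bound k),
    LinearMap.mkContinuous_norm_le _ (norm_nonneg _) _, fun p q => ?_⟩
  rw [inner_dl, LinearMap.mkContinuous_apply, KL_apply, ← inner_conj_symm, inner_dl, row, mk2_apply,
    RingHomCompTriple.comp_apply, RingHom.id_apply]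

end

end Pool.Agent.N2.LR.HS
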